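import Pool.Agent.H18.FalseTheta2

open Finset PowerSeries Filter

namespace Pool.Agent.Results.MP_0ebc21_nt.Growth

open Pool.Agent.H18.FalseTheta

lemma push (e : ℕ → ℕ) (he : Function.Injective e) (hk : ∀ k, k ≤ e k) (q : ℝ) (h0 : 0 ≤ q)
    (h1 : q < 1) :
    Summable (fun k => (-1 : ℝ) ^ tri k * q ^ e k) ∧
    HasSum (fun N => (∑ k ∈ range (N + 1), (-1 : ℝ) ^ tri k * (if e k = N then 1 else 0)) * q ^ N)
      (∑' k, (-1 : ℝ) ^ tri k * q ^ e k) := by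
  have hs : Summable (fun k => (-1 : ℝ) ^ tri k * q ^ e k) := by
    refine Summable.of_norm_bounded (summable_geometric_of_lt_one h0 h1) fun k => ?_
    rw [norm_mul, norm_pow, norm_neg, norm_one, one_pow, one_mul, Real.norm_eq_abs,
      abs_of_nonneg (by positivity)]
    exact pow_le_pow_of_le_one h0 h1.le (hk k)
  refine ⟨hs, ?_⟩
  rw [← he.hasSum_iff]
  · convert hs.hasSum using 1
    funext k
    simp only [Function.comp]
    rw [sum_eq_single k]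
    · simp
    · intro j _ hj
      rw [if_neg (fun h => hj (he h)), mul_zero]
    · intro h
      exact absurd (mem_range.2 (by have := hk k; omega)) h
  · intro N hN
    rw [sum_eq_zero, zero_mul]
    intro k _
    rw [if_neg (fun h => hN ⟨k, h⟩), mul_zero]

lemma e1_inj (a : ℕ) (ha : 1 ≤ a) : Function.Injective (e1 a) := by
  apply StrictMono.injective
  apply strictMono_nat_of_lt_succ
  intro k
  unfold e1
  have := le_tri k
  simp only [tri]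
  rw [mul_add]
  have : 0 < a * (k + 1) := by positivity
  omega

lemma e2_inj (a : ℕ) : Function.Injective (e2 a) := by
  apply StrictMono.injective
  apply strictMono_nat_of_lt_succ
  intro k
  unfold e2
  simp only [tri]
  rw [mul_add]
  omega

lemma coeff_cast (a : ℕ) (ha : 1 ≤ a) (N : ℕ) : ((coeff N (Psi a) : ℤ) : ℝ) =
    ∑ k ∈ range (N + 1), (-1 : ℝ) ^ tri k * (if e1 a k = N then 1 else 0) -
    ∑ k ∈ range (N + 1), (-1 : ℝ) ^ tri k * (if e2 a k = N then 1 else 0) := by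
  rw [coeff_Psi a ha N (N + 1) (by omega), ← sum_sub_distrib]
  push_cast
  exact sum_congr rfl fun k _ => by ring

lemma coeff_bound (a : ℕ) (ha : 1 ≤ a) (N : ℕ) : |((coeff N (Psi a) : ℤ) : ℝ)| ≤ N + 1 := by
  rw [coeff_cast a ha, ← sum_sub_distrib]
  refine (abs_sum_le_sum_abs _ _).trans ?_
  have := sum_le_card_nsmul (range (N + 1)) (fun k => |(-1 : ℝ) ^ tri k *
    (if e1 a k = N then 1 else 0) - (-1 : ℝ) ^ tri k * (if e2 a k = N then 1 else 0)|) 1 (by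
      intro k _
      rw [← mul_sub, abs_mul, abs_pow, abs_neg, abs_one, one_pow, one_mul]
      split_ifs <;> norm_num)
  simpa using this

noncomputable def f (a : ℕ) (q : ℝ) : ℝ := ∑' N, ((coeff N (Psi a) : ℤ) : ℝ) * q ^ N

lemma summ (q : ℝ) (h0 : 0 ≤ q) (h1 : q < 1) : Summable (fun N : ℕ => ((N : ℝ) + 1) * q ^ N) := by
  have a1 := summable_pow_mul_geometric_of_norm_lt_one 1 (r := q) (by
    rwa [Real.norm_eq_abs, abs_of_nonneg h0])
  have a2 := summable_geometric_of_lt_one h0 h1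
  simpa [add_mul] using a1.add a2

lemma bound (a : ℕ) (ha : 1 ≤ a) (q r : ℝ) (h0 : 0 ≤ q) (h1 : q ≤ r) (N : ℕ) :
    ‖((coeff N (Psi a) : ℤ) : ℝ) * q ^ N‖ ≤ ((N : ℝ) + 1) * r ^ N := by
  rw [norm_mul, Real.norm_eq_abs, Real.norm_eq_abs, abs_of_nonneg (pow_nonneg h0 N)]
  exact mul_le_mul (coeff_bound a ha N) (pow_le_pow_left₀ h0 h1 N) (by positivity)
    (by positivity)

lemma cont (a : ℕ) (ha : 1 ≤ a) (r : ℝ) (h0 : 0 ≤ r) (h1 : r < 1) :
    ContinuousOn (f a) (Set.Icc 0 r) := by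
  unfold f
  refine continuousOn_tsum (fun N => by fun_prop) (summ r h0 h1) ?_
  intro N q hq
  exact bound a ha q r hq.1 hq.2 N

lemma f_zero (a : ℕ) (ha : 1 ≤ a) : f a 0 = 1 := by
  unfold f
  rw [tsum_eq_single 0]
  · simp [const_Psi a ha]
  · intro N hN
    simp [hN]

lemma tail (k : ℕ) : (2 * (k + 3 : ℕ) + 1 : ℝ) * (3 / 5) ^ tri (k + 3) ≤ 33 / 100 * (1 / 5) ^ k := by
  induction k with
  | zero => norm_num [tri]
  | succ k ih =>
    have e : tri (k + 1 + 3) = tri (k + 3) + (4 + k) := by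
      rw [show k + 1 + 3 = k + 3 + 1 by ring, tri]; ring
    rw [e, pow_add, pow_add, pow_succ (1 / 5 : ℝ)]
    push_cast at ih ⊢
    have h1 : (3 / 5 : ℝ) ^ k ≤ 1 := pow_le_one₀ (by norm_num) (by norm_num)
    have h2 : (0 : ℝ) ≤ (3 / 5) ^ tri (k + 3) := by positivity
    have h3 : (0 : ℝ) ≤ k := Nat.cast_nonneg k
    have h4 : (2 * ((k : ℝ) + 1 + 3) + 1) * ((3 / 5) ^ 4 * (3 / 5) ^ k) ≤
        (2 * ((k : ℝ) + 3) + 1) * (1 / 5) := by
      have : (0 : ℝ) ≤ (3 / 5) ^ k := by positivity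
      nlinarith
    nlinarith [mul_le_mul_of_nonneg_left h4 h2]

lemma f_neg (a : ℕ) (ha : 1 ≤ a) (q : ℝ) (h0 : 3 / 5 ≤ q) (h1 : q < 1) (hq : q ^ a = 3 / 5) :
    f a q < 0 := by
  have hq0 : 0 ≤ q := by linarith
  obtain ⟨s1, t1⟩ := push (e1 a) (e1_inj a ha) (fun k => le_e1 a k ha) q hq0 h1
  obtain ⟨s2, t2⟩ := push (e2 a) (e2_inj a) (fun k => by
    have := le_e1 a k ha; have := e2_eq a k; omega) q hq0 h1
  have e : f a q = ∑' k, ((-1 : ℝ) ^ tri k * q ^ e1 a k - (-1 : ℝ) ^ tri k * q ^ e2 a k) := by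
    rw [s1.tsum_sub s2, ← (t1.sub t2).tsum_eq]
    unfold f
    congr 1
    funext N
    rw [coeff_cast a ha, sub_mul]
  have hs := s1.sub s2
  rw [e, ← hs.sum_add_tsum_nat_add 3]
  have w : ∀ k, (-1 : ℝ) ^ tri k * q ^ e1 a k - (-1 : ℝ) ^ tri k * q ^ e2 a k =
      (-1 : ℝ) ^ tri k * ((3 / 5) ^ tri k * q ^ (tri k - k) * (1 - q ^ (2 * k + 1))) := by
    intro k
    rw [e2_eq, pow_add q (e1 a k), e1, pow_add q (a * tri k), pow_mul, hq]
    ring
  have g : HasSum (fun k : ℕ => (1 - q) * (33 / 100 * (1 / 5 : ℝ) ^ k))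
      ((1 - q) * (33 / 100 * (1 - 1 / 5)⁻¹)) :=
    ((hasSum_geometric_of_lt_one (by norm_num) (by norm_num)).mul_left _).mul_left _
  have tl : ∑' k, ((-1 : ℝ) ^ tri (k + 3) * q ^ e1 a (k + 3) -
      (-1 : ℝ) ^ tri (k + 3) * q ^ e2 a (k + 3)) ≤ (1 - q) * (33 / 100 * (1 - 1 / 5)⁻¹) := by
    rw [← g.tsum_eq]
    refine Summable.tsum_le_tsum (fun k => ?_) ((summable_nat_add_iff 3).2 hs) g.summable
    rw [w]
    refine (le_abs_self _).trans ?_
    have b1 : q ^ (2 * (k + 3) + 1) ≤ 1 := pow_le_one₀ hq0 h1.le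
    have b2 : q ^ (tri (k + 3) - (k + 3)) ≤ 1 := pow_le_one₀ hq0 h1.le
    have b3 := one_add_mul_le_pow (a := q - 1) (by linarith) (2 * (k + 3) + 1)
    rw [add_sub_cancel] at b3
    have b4 : 1 - q ^ (2 * (k + 3) + 1) ≤ (2 * (k + 3 : ℕ) + 1 : ℝ) * (1 - q) := by
      push_cast at b3 ⊢
      linarith
    rw [abs_mul, abs_pow, abs_neg, abs_one, one_pow, one_mul,
      abs_of_nonneg (mul_nonneg (by positivity) (by linarith))]
    calc (3 / 5 : ℝ) ^ tri (k + 3) * q ^ (tri (k + 3) - (k + 3)) * (1 - q ^ (2 * (k + 3) + 1))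
        ≤ (3 / 5) ^ tri (k + 3) * 1 * ((2 * (k + 3 : ℕ) + 1 : ℝ) * (1 - q)) := by
          gcongr
      _ = (1 - q) * ((2 * (k + 3 : ℕ) + 1 : ℝ) * (3 / 5) ^ tri (k + 3)) := by ring
      _ ≤ _ := mul_le_mul_of_nonneg_left (tail k) (by linarith)
  have hd : ∑ k ∈ range 3, ((-1 : ℝ) ^ tri k * q ^ e1 a k - (-1 : ℝ) ^ tri k * q ^ e2 a k) =
      (1 - q) * (1 - 3 / 5 * (1 + q + q ^ 2) -
        (3 / 5) ^ 3 * (q + q ^ 2 + q ^ 3 + q ^ 4 + q ^ 5)) := by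
    simp only [w, sum_range_succ, sum_range_zero, tri]
    norm_num
    ring
  rw [hd]
  have p2 : (3 / 5 : ℝ) ^ 2 ≤ q ^ 2 := by gcongr
  have p3 : (3 / 5 : ℝ) ^ 3 ≤ q ^ 3 := by gcongr
  have p4 : (3 / 5 : ℝ) ^ 4 ≤ q ^ 4 := by gcongr
  have p5 : (3 / 5 : ℝ) ^ 5 ≤ q ^ 5 := by gcongr
  have fin : 1 - 3 / 5 * (1 + q + q ^ 2) - (3 / 5) ^ 3 * (q + q ^ 2 + q ^ 3 + q ^ 4 + q ^ 5) +
      33 / 100 * (1 - 1 / 5)⁻¹ < 0 := by
    norm_num at p2 p3 p4 p5 ⊢
    linarith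
  have := mul_neg_of_pos_of_neg (show 0 < 1 - q by linarith) fin
  linarith

lemma exists_zero (a : ℕ) (ha : 1 ≤ a) : ∃ q : ℝ, 0 ≤ q ∧ q < 1 ∧ f a q = 0 := by
  obtain ⟨r, hr0, hr⟩ : ∃ r : ℝ, 0 ≤ r ∧ r ^ a = 3 / 5 :=
    ⟨(3 / 5 : ℝ) ^ ((a : ℝ)⁻¹), by positivity,
      Real.rpow_inv_natCast_pow (by norm_num) (by omega)⟩
  have h1 : r < 1 := by
    by_contra hc
    have := one_le_pow₀ (n := a) (not_lt.1 hc)
    linarith
  have h2 : 3 / 5 ≤ r := by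
    have := pow_le_of_le_one hr0 h1.le (n := a) (by omega)
    linarith
  have hn := f_neg a ha r h2 h1 hr
  obtain ⟨q, hq, h⟩ := intermediate_value_Icc' hr0 (cont a ha r hr0 h1)
    (show (0 : ℝ) ∈ Set.Icc (f a r) (f a 0) by rw [f_zero a ha]; exact ⟨hn.le, zero_le_one⟩)
  exact ⟨q, hq.1, hq.2.trans_lt h1, h⟩

theorem result (a : ℕ) (ha : 1 ≤ a) : ∃ β : ℝ, 1 < β ∧
    ∃ᶠ n in atTop, β ^ n ≤ |((coeff n (invOfUnit (Psi a) 1) : ℤ) : ℝ)| := by
  obtain ⟨q, h0, h1, hq⟩ := exists_zero a ha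
  refine ⟨2 / (1 + q), by rw [lt_div_iff₀ (by linarith)]; linarith, ?_⟩
  by_contra hc
  rw [not_frequently] at hc
  have hb : 2 / (1 + q) * q < 1 := by
    rw [div_mul_eq_mul_div, div_lt_one (by linarith)]
    linarith
  have s1 : Summable fun n => ‖((coeff n (Psi a) : ℤ) : ℝ) * q ^ n‖ :=
    Summable.of_nonneg_of_le (fun _ => norm_nonneg _) (bound a ha q q h0 le_rfl) (summ q h0 h1)
  have s2 : Summable fun n => ‖((coeff n (invOfUnit (Psi a) 1) : ℤ) : ℝ) * q ^ n‖ := by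
    refine Summable.of_norm_bounded_eventually_nat
      (summable_geometric_of_lt_one (by positivity) hb) ?_
    filter_upwards [hc] with n hn
    rw [norm_norm, norm_mul, Real.norm_eq_abs, Real.norm_eq_abs, abs_of_nonneg (pow_nonneg h0 n),
      mul_pow]
    exact mul_le_mul_of_nonneg_right (not_le.1 hn).le (pow_nonneg h0 n)
  have key := tsum_mul_tsum_eq_tsum_sum_antidiagonal_of_summable_norm s1 s2
  have e : ∀ n : ℕ, ∑ kl ∈ antidiagonal n, ((coeff kl.1 (Psi a) : ℤ) : ℝ) * q ^ kl.1 *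
      (((coeff kl.2 (invOfUnit (Psi a) 1) : ℤ) : ℝ) * q ^ kl.2) = if n = 0 then 1 else 0 := by
    intro n
    have h := congrArg (coeff n) (Psi_mul_inv a ha)
    rw [coeff_mul, coeff_one] at h
    have h' : ∑ kl ∈ antidiagonal n, ((coeff kl.1 (Psi a) : ℤ) : ℝ) *
        ((coeff kl.2 (invOfUnit (Psi a) 1) : ℤ) : ℝ) = if n = 0 then 1 else 0 := by
      exact_mod_cast h
    have : ∑ kl ∈ antidiagonal n, ((coeff kl.1 (Psi a) : ℤ) : ℝ) * q ^ kl.1 *
        (((coeff kl.2 (invOfUnit (Psi a) 1) : ℤ) : ℝ) * q ^ kl.2) =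
        (∑ kl ∈ antidiagonal n, ((coeff kl.1 (Psi a) : ℤ) : ℝ) *
          ((coeff kl.2 (invOfUnit (Psi a) 1) : ℤ) : ℝ)) * q ^ n := by
      rw [sum_mul]
      apply sum_congr rfl
      intro kl hkl
      rw [← HasAntidiagonal.mem_antidiagonal.1 hkl, pow_add]
      ring
    rw [this, h']
    split_ifs with hn
    · simp [hn]
    · simp
  simp only [e] at key
  rw [tsum_ite_eq] at key
  unfold f at hq
  rw [hq, zero_mul] at key
  exact zero_ne_one key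

end Pool.Agent.Results.MP_0ebc21_nt.Growth
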